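import Pool.Agent.R154.Steiner.Circle

/-!
# The largest length of a Steiner tree inside a terminal-free ball

Question 2 of the problem: `L_2 = 2π` and `L_d = ∞` for every `d ≥ 3`.
-/

set_option autoImplicit false

open scoped MeasureTheory ENNReal
open MeasureTheory Set

namespace Pool.Agent.Results.MP_8790b5_co.LengthConstant

/-- `S` is a Steiner tree for the set `A` of terminals: a closed connected set of finite length
that contains `A` and minimises `ℋ¹` among all closed connected sets containing `A`. -/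
def IsSteinerTree {d : ℕ} (A S : Set (EuclideanSpace ℝ (Fin d))) : Prop :=
  IsClosed S ∧ IsConnected S ∧ A ⊆ S ∧ μH[1] S < ⊤ ∧
    ∀ T : Set (EuclideanSpace ℝ (Fin d)), IsClosed T → IsConnected T → A ⊆ T → μH[1] S ≤ μH[1] T

/-- `L_d`: the supremum of `ℋ¹(S ∩ B_r(x)) / r` over all compact sets `A`, all Steiner trees `S`
for `A` and all balls `B_r(x)` that contain no point of `A`. -/
noncomputable def L (d : ℕ) : ℝ≥0∞ :=
  sSup {l | ∃ (A S : Set (EuclideanSpace ℝ (Fin d))) (x : EuclideanSpace ℝ (Fin d)) (r : ℝ),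
    IsCompact A ∧ IsSteinerTree A S ∧ 0 < r ∧ A ∩ Metric.ball x r = ∅ ∧
      l = μH[1] (S ∩ Metric.ball x r) / ENNReal.ofReal r}

theorem result : L 2 = ENNReal.ofReal (2 * Real.pi) ∧ ∀ d : ℕ, 3 ≤ d → L d = ⊤ := by
  have hpi := Real.pi_pos
  have hub : L 2 ≤ ENNReal.ofReal (2 * Real.pi) := by
    refine sSup_le ?_
    rintro _ ⟨A, S, x, r, hA, hS, hr, hAr, rfl⟩
    have hsph : IsConnected (Metric.sphere x r) := by
      refine isConnected_sphere ?_ x hr.le
      rw [← Module.finrank_eq_rank]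
      simp
    have h1 := Pool.Agent.R154.Steiner.steiner_ball_le hS hAr hsph
    have h2 := Pool.Agent.R154.Steiner.circle_le x hr
    have h3 : ENNReal.ofReal r ≠ 0 := by
      rw [Ne, ENNReal.ofReal_eq_zero, not_le]; exact hr
    rw [ENNReal.div_le_iff h3 ENNReal.ofReal_ne_top, ← ENNReal.ofReal_mul (by positivity)]
    exact h1.trans h2
  refine ⟨le_antisymm hub ?_, ?_⟩
  · have hfin : L 2 ≠ ⊤ := ne_top_of_le_ne_top ENNReal.ofReal_ne_top hub
    have hreal : (L 2).toReal ≤ 2 * Real.pi := by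
      have := ENNReal.toReal_mono ENNReal.ofReal_ne_top hub
      rwa [ENNReal.toReal_ofReal (by positivity)] at this
    have hkey : 2 * Real.pi ≤ (L 2).toReal := by
      refine Pool.Agent.R154.Steiner.limit_lower ENNReal.toReal_nonneg
        (hreal.trans (by linarith [Real.pi_lt_d2])) fun n => ?_
      obtain ⟨A, S, hA, hS, hAr, hest⟩ := Pool.Agent.R154.Steiner.plane_steiner n
      refine ⟨(μH[1] (S ∩ Metric.ball 0 1)).toReal, ENNReal.toReal_nonneg, ?_, hest⟩
      refine ENNReal.toReal_mono hfin (le_sSup ⟨A, S, 0, 1, hA, hS, one_pos, hAr, ?_⟩)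
      rw [ENNReal.ofReal_one, div_one]
    calc ENNReal.ofReal (2 * Real.pi) ≤ ENNReal.ofReal (L 2).toReal := ENNReal.ofReal_le_ofReal hkey
      _ = L 2 := ENNReal.ofReal_toReal hfin
  · intro d hd
    obtain ⟨n, rfl⟩ : ∃ n, d = n + 3 := ⟨d - 3, by omega⟩
    refine ENNReal.eq_top_of_forall_nnreal_le fun c => ?_
    obtain ⟨k, hk⟩ := exists_nat_gt (4 * (c : ℝ) + 2)
    have hc : (0:ℝ) ≤ c := c.2
    have hk2 : 2 ≤ k := by
      have : (2:ℝ) < k := by linarith
      exact_mod_cast this.le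
    obtain ⟨A, S, hA, hS, hAr, hest⟩ := Pool.Agent.R154.Steiner.long_steiner n k hk2
    refine le_trans ?_ (hest.trans
      (le_sSup ⟨A, S, 0, 1, hA, hS, one_pos, hAr, by rw [ENNReal.ofReal_one, div_one]⟩))
    rw [← ENNReal.ofReal_coe_nnreal]
    apply ENNReal.ofReal_le_ofReal
    linarith

end Pool.Agent.Results.MP_8790b5_co.LengthConstant
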